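import Pool.Agent.helper79.EPT.Spec

/-!
# Project EPT, row CN2: counting two congruences
-/

set_option autoImplicit false

namespace Pool.Agent.EPT

open Finset

theorem CN2_rep (n r : ℕ) (hr : 0 < r) : ∃ a : ℕ, (r : ℤ) ∣ (n : ℤ) + a := by
  refine ⟨n * (r - 1), ?_⟩
  have h1 : ((n * (r - 1) : ℕ) : ℤ) = (n : ℤ) * ((r : ℤ) - 1) := by
    push_cast [Nat.cast_sub (show 1 ≤ r by omega)]
    ring
  rw [h1]
  exact ⟨n, by ring⟩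

theorem CN2 (hCN1 : CN1_stmt) : CN2_stmt := by
  intro r₁ r₂ L n₁ n₂ hr1 hr2 h1L h2L
  classical
  unfold cc
  have hdvd : ∀ r n b : ℕ, r ∣ n + b ↔ (r : ℤ) ∣ (n : ℤ) + b := by
    intro r n b
    constructor
    · intro h
      exact_mod_cast (Int.natCast_dvd_natCast.2 h)
    · intro h
      exact Int.natCast_dvd_natCast.1 (by exact_mod_cast h)
  by_cases hg : ((Nat.gcd r₁ r₂ : ℕ) : ℤ) ∣ (n₁ : ℤ) - (n₂ : ℤ)
  · rw [if_pos hg]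
    obtain ⟨a₁, ha1⟩ := CN2_rep n₁ r₁ hr1
    obtain ⟨a₂, ha2⟩ := CN2_rep n₂ r₂ hr2
    have hcong : a₁ ≡ a₂ [MOD Nat.gcd r₁ r₂] := by
      have e1 : ((Nat.gcd r₁ r₂ : ℕ) : ℤ) ∣ (r₁ : ℤ) := Int.natCast_dvd_natCast.2 (Nat.gcd_dvd_left _ _)
      have e2 : ((Nat.gcd r₁ r₂ : ℕ) : ℤ) ∣ (r₂ : ℤ) := Int.natCast_dvd_natCast.2 (Nat.gcd_dvd_right _ _)
      have e3 := e1.trans ha1
      have e4 := e2.trans ha2
      rw [Nat.modEq_iff_dvd]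
      have e5 : (a₂ : ℤ) - a₁ = ((n₂ : ℤ) + a₂) - ((n₁ : ℤ) + a₁) + ((n₁ : ℤ) - n₂) := by ring
      rw [e5]
      exact Dvd.dvd.add (Dvd.dvd.sub e4 e3) hg
    obtain ⟨b₀, hb1, hb2⟩ := Nat.chineseRemainder' hcong
    have hb1' : (r₁ : ℤ) ∣ (n₁ : ℤ) + b₀ := by
      have e1 := (Nat.modEq_iff_dvd.1 hb1)
      have e2 : (n₁ : ℤ) + b₀ = ((n₁ : ℤ) + a₁) - ((a₁ : ℤ) - b₀) := by ring
      rw [e2]
      exact Dvd.dvd.sub ha1 e1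
    have hb2' : (r₂ : ℤ) ∣ (n₂ : ℤ) + b₀ := by
      have e1 := (Nat.modEq_iff_dvd.1 hb2)
      have e2 : (n₂ : ℤ) + b₀ = ((n₂ : ℤ) + a₂) - ((a₂ : ℤ) - b₀) := by ring
      rw [e2]
      exact Dvd.dvd.sub ha2 e1
    have hl0 : 0 < Nat.lcm r₁ r₂ := Nat.lcm_pos hr1 hr2
    -- `m ≡ - b₀` modulo the lcm
    obtain ⟨m, hm⟩ := CN2_rep b₀ (Nat.lcm r₁ r₂) hl0
    have hiff : ∀ b : ℕ, (r₁ ∣ n₁ + b ∧ r₂ ∣ n₂ + b) ↔ Nat.lcm r₁ r₂ ∣ m + b := by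
      intro b
      rw [hdvd, hdvd, hdvd]
      have e1 : (r₁ : ℤ) ∣ (n₁ : ℤ) + b ↔ (r₁ : ℤ) ∣ (b : ℤ) - b₀ := by
        constructor
        · intro h
          have := Dvd.dvd.sub h hb1'
          have e : (n₁ : ℤ) + b - ((n₁ : ℤ) + b₀) = (b : ℤ) - b₀ := by ring
          rwa [e] at this
        · intro h
          have := Dvd.dvd.add h hb1'
          have e : (b : ℤ) - b₀ + ((n₁ : ℤ) + b₀) = (n₁ : ℤ) + b := by ring
          rwa [e] at this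
      have e2 : (r₂ : ℤ) ∣ (n₂ : ℤ) + b ↔ (r₂ : ℤ) ∣ (b : ℤ) - b₀ := by
        constructor
        · intro h
          have := Dvd.dvd.sub h hb2'
          have e : (n₂ : ℤ) + b - ((n₂ : ℤ) + b₀) = (b : ℤ) - b₀ := by ring
          rwa [e] at this
        · intro h
          have := Dvd.dvd.add h hb2'
          have e : (b : ℤ) - b₀ + ((n₂ : ℤ) + b₀) = (n₂ : ℤ) + b := by ring
          rwa [e] at this
      have e3 : ((Nat.lcm r₁ r₂ : ℕ) : ℤ) ∣ (m : ℤ) + b ↔ ((Nat.lcm r₁ r₂ : ℕ) : ℤ) ∣ (b : ℤ) - b₀ := by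
        constructor
        · intro h
          have := Dvd.dvd.sub h hm
          have e : (m : ℤ) + b - ((b₀ : ℤ) + m) = (b : ℤ) - b₀ := by ring
          rwa [e] at this
        · intro h
          have := Dvd.dvd.add h hm
          have e : (b : ℤ) - b₀ + ((b₀ : ℤ) + m) = (m : ℤ) + b := by ring
          rwa [e] at this
      rw [e1, e2, e3, Int.natCast_dvd, Int.natCast_dvd, Int.natCast_dvd, Nat.lcm_dvd_iff]
    have hfil : ((range L).filter fun b => r₁ ∣ n₁ + b ∧ r₂ ∣ n₂ + b) =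
        ((range L).filter fun b => Nat.lcm r₁ r₂ ∣ m + b) := Finset.filter_congr fun b _ => hiff b
    have hcard := hCN1 (Nat.lcm r₁ r₂) L m hl0 (Nat.lcm_dvd h1L h2L)
    have hgl : ((Nat.gcd r₁ r₂ : ℕ) : ℝ) * ((Nat.lcm r₁ r₂ : ℕ) : ℝ) = (r₁ : ℝ) * r₂ := by
      exact_mod_cast Nat.gcd_mul_lcm r₁ r₂
    have hfil' : (((range L).filter fun b => r₁ ∣ n₁ + b ∧ r₂ ∣ n₂ + b).card : ℝ) =
        (L : ℝ) / ((Nat.lcm r₁ r₂ : ℕ) : ℝ) := by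
      rw [← hcard, hfil]
    have hlR : ((Nat.lcm r₁ r₂ : ℕ) : ℝ) ≠ 0 := by exact_mod_cast hl0.ne'
    have hr1R : (r₁ : ℝ) ≠ 0 := by exact_mod_cast hr1.ne'
    have hr2R : (r₂ : ℝ) ≠ 0 := by exact_mod_cast hr2.ne'
    have hfin : (L : ℝ) / ((Nat.lcm r₁ r₂ : ℕ) : ℝ) = (L : ℝ) * (Nat.gcd r₁ r₂ : ℝ) / ((r₁ : ℝ) * (r₂ : ℝ)) := by
      rw [← hgl]
      have hg0 : ((Nat.gcd r₁ r₂ : ℕ) : ℝ) ≠ 0 := by
        exact_mod_cast (Nat.gcd_pos_of_pos_left r₂ hr1).ne'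
      field_simp
    rw [← hfin, ← hfil']
  · rw [if_neg hg, mul_zero, zero_div]
    have hemp : ((range L).filter fun b => r₁ ∣ n₁ + b ∧ r₂ ∣ n₂ + b) = ∅ := by
      rw [Finset.filter_eq_empty_iff]
      rintro b - ⟨h1, h2⟩
      apply hg
      rw [hdvd] at h1 h2
      have e1 : ((Nat.gcd r₁ r₂ : ℕ) : ℤ) ∣ (r₁ : ℤ) := Int.natCast_dvd_natCast.2 (Nat.gcd_dvd_left _ _)
      have e2 : ((Nat.gcd r₁ r₂ : ℕ) : ℤ) ∣ (r₂ : ℤ) := Int.natCast_dvd_natCast.2 (Nat.gcd_dvd_right _ _)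
      have e3 := Dvd.dvd.sub (e1.trans h1) (e2.trans h2)
      have e : (n₁ : ℤ) + b - ((n₂ : ℤ) + b) = (n₁ : ℤ) - n₂ := by ring
      rwa [e] at e3
    have hc : (((range L).filter fun b => r₁ ∣ n₁ + b ∧ r₂ ∣ n₂ + b).card : ℝ) = 0 := by
      rw [hemp]
      simp
    rw [← hc]

end Pool.Agent.EPT
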