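import Pool.Agent.helper79.EPT.Spec

/-!
# Project EPT, row CRT: independence of coprime moduli
-/

set_option autoImplicit false

namespace Pool.Agent.EPT

open Finset

theorem CRT : CRT_stmt := by
  intro L₁ L₂ A B h1 h2 hc hA hB
  classical
  have key : ((range (L₁ * L₂)).filter fun b => b % L₁ ∈ A ∧ b % L₂ ∈ B).card = (A ×ˢ B).card := by
    refine Finset.card_bij (fun b _ => (b % L₁, b % L₂)) ?_ ?_ ?_
    · intro b hb
      rw [Finset.mem_filter] at hb
      rw [Finset.mem_product]
      exact hb.2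
    · intro b hb b' hb' he
      rw [Finset.mem_filter, Finset.mem_range] at hb hb'
      have e1 : b ≡ b' [MOD L₁] := congrArg Prod.fst he
      have e2 : b ≡ b' [MOD L₂] := congrArg Prod.snd he
      have e3 : b ≡ b' [MOD L₁ * L₂] := (Nat.modEq_and_modEq_iff_modEq_mul hc).1 ⟨e1, e2⟩
      exact Nat.ModEq.eq_of_lt_of_lt e3 hb.1 hb'.1
    · rintro ⟨a, c⟩ hac
      rw [Finset.mem_product] at hac
      obtain ⟨ha, hcB⟩ := hac
      have haL : a < L₁ := Finset.mem_range.1 (hA ha)
      have hcL : c < L₂ := Finset.mem_range.1 (hB hcB)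
      obtain ⟨k, hk⟩ : ∃ k, k = (Nat.chineseRemainder hc a c : ℕ) := ⟨_, rfl⟩
      have hk1 : k ≡ a [MOD L₁] := by
        rw [hk]
        exact (Nat.chineseRemainder hc a c).2.1
      have hk2 : k ≡ c [MOD L₂] := by
        rw [hk]
        exact (Nat.chineseRemainder hc a c).2.2
      have hk3 : k < L₁ * L₂ := by
        rw [hk]
        exact Nat.chineseRemainder_lt_mul hc a c h1.ne' h2.ne'
      have e1 : k % L₁ = a := by
        rw [hk1]
        exact Nat.mod_eq_of_lt haL
      have e2 : k % L₂ = c := by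
        rw [hk2]
        exact Nat.mod_eq_of_lt hcL
      refine ⟨k, ?_, ?_⟩
      · rw [Finset.mem_filter, Finset.mem_range, e1, e2]
        exact ⟨hk3, ha, hcB⟩
      · rw [e1, e2]
  rw [Finset.card_product] at key
  rw [← key]

end Pool.Agent.EPT
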