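import Pool.Agent.helper79.EPT.Spec

/-!
# Project EPT, row HHB: dyadic harmonic sums
-/

set_option autoImplicit false

namespace Pool.Agent.EPT

open Finset

theorem HHB : HHB_stmt := by
  intro a k ha
  induction k with
  | zero =>
    simp [HH]
  | succ k ih =>
    obtain ⟨ih1, ih2⟩ := ih
    have hA : 0 < a * 2 ^ k := Nat.mul_pos (by omega) (by positivity)
    have hle : a * 2 ^ k ≤ a * 2 ^ (k + 1) := by
      have h1 : a * 2 ^ (k + 1) = 2 * (a * 2 ^ k) := by rw [pow_succ]; ring
      omega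
    have hle0 : a ≤ a * 2 ^ k := Nat.le_mul_of_pos_right a (by positivity)
    have hsplit : HH a (a * 2 ^ (k + 1)) = HH a (a * 2 ^ k) + ∑ j ∈ Ico (a * 2 ^ k) (a * 2 ^ (k + 1)), 1 / (j : ℝ) := by
      unfold HH
      exact (Finset.sum_Ico_consecutive _ hle0 hle).symm
    obtain ⟨m, hm⟩ : ∃ m, m = a * 2 ^ k := ⟨_, rfl⟩
    have hm2 : a * 2 ^ (k + 1) = 2 * m := by rw [hm, pow_succ]; ring
    rw [← hm] at hA ih1 ih2 hsplit
    rw [hm2] at hsplit
    have hmR : (0 : ℝ) < m := by exact_mod_cast hA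
    have hcard : ((Ico m (2 * m)).card : ℝ) = m := by
      rw [Nat.card_Ico]
      congr 1
      omega
    have hup : ∑ j ∈ Ico m (2 * m), 1 / (j : ℝ) ≤ 1 := by
      calc ∑ j ∈ Ico m (2 * m), 1 / (j : ℝ) ≤ ∑ j ∈ Ico m (2 * m), 1 / (m : ℝ) := by
            refine Finset.sum_le_sum fun j hj => ?_
            rw [Finset.mem_Ico] at hj
            exact one_div_le_one_div_of_le hmR (by exact_mod_cast hj.1)
        _ = 1 := by
            rw [Finset.sum_const, nsmul_eq_mul, hcard]
            field_simp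
    have hlo : 1 / 2 ≤ ∑ j ∈ Ico m (2 * m), 1 / (j : ℝ) := by
      calc (1 : ℝ) / 2 = ∑ j ∈ Ico m (2 * m), 1 / (2 * (m : ℝ)) := by
            rw [Finset.sum_const, nsmul_eq_mul, hcard]
            field_simp
        _ ≤ ∑ j ∈ Ico m (2 * m), 1 / (j : ℝ) := by
            refine Finset.sum_le_sum fun j hj => ?_
            rw [Finset.mem_Ico] at hj
            have hj0 : (0 : ℝ) < j := by exact_mod_cast (by omega : 0 < j)
            refine one_div_le_one_div_of_le hj0 ?_
            exact_mod_cast hj.2.le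
    rw [hm2, hsplit]
    push_cast
    constructor
    · linarith
    · linarith

end Pool.Agent.EPT
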