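import Pool.Agent.helper79.EPT.Spec

/-!
# Project EPT, row KBC: the pairs with different `p`
-/

set_option autoImplicit false

namespace Pool.Agent.EPT

open Finset

open scoped Classical in
theorem KBC (hKBA : KBA_stmt) (hKBB : KBB_stmt) (hSDC : SDC_stmt) (hDEC : DEC_stmt) : KBC_stmt := by
  intro W α β P₁ P₂ M B Q hQ hα hP1 hP2 hne hc1 hc2 hM
  have hδ : 0 < Nat.dist (α * P₁ + 1) (α * P₂ + 1) := by
    refine Nat.pos_of_ne_zero fun h0 => ?_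
    have h1 := Nat.eq_of_dist_eq_zero h0
    have h2 : α * P₁ = α * P₂ := by omega
    exact hne (Nat.eq_of_mul_eq_mul_left hα h2)
  have hA := hKBA W α β P₁ P₂ Q hα hP1 hP2 hne hc1 hc2 (fun q hq => ⟨hQ.eq q hq, hQ.pos q hq, hQ.cop q hq⟩)
  refine hA.trans ?_
  obtain ⟨D, hD⟩ : ∃ D, D = (Icc 1 (P₁ * P₂ * Nat.dist (α * P₁ + 1) (α * P₂ + 1))).filter
        (fun d => Adm W P₁ P₂ (Nat.dist (α * P₁ + 1) (α * P₂ + 1)) d) := ⟨_, rfl⟩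
  rw [← hD]
  have hDm : ∀ d ∈ D, Adm W P₁ P₂ (Nat.dist (α * P₁ + 1) (α * P₂ + 1)) d ∧ d ≤ M := by
    intro d hd
    rw [hD, Finset.mem_filter, Finset.mem_Icc] at hd
    exact ⟨hd.2, hd.1.2.trans hM⟩
  calc ∑ d ∈ D, (d.totient : ℝ) * ∑ q₁ ∈ Q, ∑ q₂ ∈ Q,
        (if Cd α β P₁ P₂ d q₁ q₂ then 1 / ((pr β q₁ : ℝ) * (pr β q₂ : ℝ)) else 0)
      ≤ ∑ d ∈ D, B ^ 2 / ((lc P₁ P₂ d).totient : ℝ) := by
        refine Finset.sum_le_sum fun d hd => ?_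
        obtain ⟨h1, h2⟩ := hDm d hd
        exact hKBB W α β P₁ P₂ M B Q d hQ h1.1 h2 h1.2.1
    _ = B ^ 2 * ∑ d ∈ D, 1 / ((lc P₁ P₂ d).totient : ℝ) := by
        rw [Finset.mul_sum]
        refine Finset.sum_congr rfl fun d _ => ?_
        rw [mul_one_div]
    _ ≤ _ := mul_le_mul_of_nonneg_left
        (hSDC W P₁ P₂ _ D hP1 hP2 hδ (fun d hd => (hDm d hd).1)) (sq_nonneg B)

end Pool.Agent.EPT
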