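import Pool.Agent.helper79.EPT.Spec

/-!
# Project EPT, row RS2: the primes in the chosen class
-/

set_option autoImplicit false

namespace Pool.Agent.EPT

open Finset

theorem RS2 : RS2_stmt := by
  intro W₁ u α t p hW hOk hRs hp
  obtain ⟨ht8, htW⟩ := hRs
  have hpt : p ≡ t [MOD 8 * W₁] := hp
  have h8 : p ≡ t [MOD 8] := Nat.ModEq.of_mul_right W₁ hpt
  have hW' : p ≡ t [MOD W₁] := Nat.ModEq.of_mul_left 8 hpt
  have hp8 : p % 8 = u := by
    rw [← ht8]
    exact h8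
  have hpW : W₁ ∣ p + 1 := by
    have h1 : p + 1 ≡ t + 1 [MOD W₁] := Nat.ModEq.add_right 1 hW'
    exact Nat.modEq_zero_iff_dvd.1 (h1.trans (Nat.modEq_zero_iff_dvd.2 htW))
  have hx : p = α * pr α p + 1 ∧ pr α p % 2 = 1 := by
    unfold pr
    rcases hOk with ⟨hu, ha⟩ | ⟨hu, ha⟩
    · subst ha
      rcases hu with hu | hu
      · omega
      · omega
    · subst ha
      omega
  obtain ⟨hx1, hx2⟩ := hx
  have hα : α = 2 ∨ α = 4 := by
    rcases hOk with ⟨_, ha⟩ | ⟨_, ha⟩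
    · exact Or.inl ha
    · exact Or.inr ha
  obtain ⟨x, hxdef⟩ : ∃ x, x = pr α p := ⟨_, rfl⟩
  rw [← hxdef] at hx1 hx2 ⊢
  have hx0 : 0 < x := by omega
  have hodd : Odd x := Nat.odd_iff.2 hx2
  have hc2 : Nat.Coprime x 2 := Nat.coprime_two_right.2 hodd
  have hc4 : Nat.Coprime x 4 := by
    have : Nat.Coprime x (2 ^ 2) := Nat.Coprime.pow_right 2 hc2
    exact this
  have hc8 : Nat.Coprime x 8 := by
    have : Nat.Coprime x (2 ^ 3) := Nat.Coprime.pow_right 3 hc2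
    exact this
  have hcW : Nat.Coprime x W₁ := by
    have hg1 : Nat.gcd x W₁ ∣ x := Nat.gcd_dvd_left _ _
    have hg2 : Nat.gcd x W₁ ∣ W₁ := Nat.gcd_dvd_right _ _
    have hg3 : Nat.gcd x W₁ ∣ p + 1 := hg2.trans hpW
    have hg4 : Nat.gcd x W₁ ∣ α * x := Dvd.dvd.mul_left hg1 α
    have hg5 : Nat.gcd x W₁ ∣ 2 := by
      have h1 : p + 1 = α * x + 2 := by omega
      rw [h1] at hg3
      exact (Nat.dvd_add_right hg4).1 hg3
    have hg6 : Odd (Nat.gcd x W₁) := Odd.of_dvd_nat hodd hg1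
    have hg7 : Nat.gcd x W₁ ≤ 2 := Nat.le_of_dvd (by norm_num) hg5
    have hg8 : 0 < Nat.gcd x W₁ := Nat.gcd_pos_of_pos_left _ hx0
    rw [Nat.odd_iff] at hg6
    have : Nat.gcd x W₁ = 1 := by omega
    exact this
  have htodd : Odd t := by
    rw [Nat.odd_iff]
    rcases hOk with ⟨hu, ha⟩ | ⟨hu, ha⟩
    · rcases hu with hu | hu
      · omega
      · omega
    · omega
  have ht2 : Nat.Coprime t 2 := Nat.coprime_two_right.2 htodd
  have ht8' : Nat.Coprime t 8 := by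
    have : Nat.Coprime t (2 ^ 3) := Nat.Coprime.pow_right 3 ht2
    exact this
  have htW' : Nat.Coprime t W₁ := by
    have hg1 : Nat.gcd t W₁ ∣ t := Nat.gcd_dvd_left _ _
    have hg3 : Nat.gcd t W₁ ∣ t + 1 := (Nat.gcd_dvd_right _ _).trans htW
    exact Nat.dvd_one.1 ((Nat.dvd_add_right hg1).1 hg3)
  refine ⟨hx1, hx0, ?_, Nat.Coprime.mul_right hc8 hcW, hc4, Nat.Coprime.mul_right ht8' htW', hp8⟩
  rcases hα with h | h
  · subst h
    omega
  · subst h
    omega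

end Pool.Agent.EPT
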