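import Pool.Agent.helper79.EPT.Spec

/-!
# Project EPT, row SDC: sum over the admissible moduli
-/

set_option autoImplicit false

namespace Pool.Agent.EPT

open Finset

theorem SDC_prod {ι κ : Type*} (S : Finset ι) (T : Finset κ) (f : ι → ℝ) (g : κ → ℝ) :
    (∑ x ∈ S, f x) * (∑ y ∈ T, g y) = ∑ z ∈ S ×ˢ T, f z.1 * g z.2 := by
  rw [Finset.sum_product, Finset.sum_mul_sum]

open scoped Classical in
theorem SDC (hDEC : DEC_stmt) : SDC_stmt := by
  intro W P₁ P₂ δ D hP1 hP2 hδ hD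
  have hex : ∀ d, d ∈ D → ∃ x : ((ℕ × ℕ) × ℕ) × ℕ, d = x.1.1.1 * x.2 * x.1.1.2 * x.1.2 ∧ x.1.1.1 ∣ Nat.gcd P₁ P₂ ∧
      x.1.1.2 ∣ P₁ ∧ x.1.2 ∣ P₂ ∧ x.2 ∣ δ ∧ Nat.Coprime x.2 W ∧ lc P₁ P₂ d = x.2 * x.1.1.2 * x.1.2 := by
    intro d hd
    obtain ⟨h, f₀, f₁, f₂, e1, e2, e3, e4, e5, e6, e7, -, -⟩ := hDEC W P₁ P₂ δ d hP1 hP2 hδ (hD d hd)
    exact ⟨(((h, f₁), f₂), f₀), e1, e2, e3, e4, e5, e6, e7⟩
  choose! x hx using hex
  have hinj : ∀ d ∈ D, ∀ d' ∈ D, x d = x d' → d = d' := by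
    intro d hd d' hd' he
    rw [(hx d hd).1, (hx d' hd').1, he]
  have hR : ((Nat.gcd P₁ P₂).divisors.card : ℝ) * sg P₁ * sg P₂ * sw W δ =
      ∑ z ∈ (((Nat.gcd P₁ P₂).divisors ×ˢ P₁.divisors) ×ˢ P₂.divisors) ×ˢ δ.divisors.filter (fun f => f.Coprime W),
        (1 : ℝ) * (1 / (z.1.1.2.totient : ℝ)) * (1 / (z.1.2.totient : ℝ)) * (1 / (z.2.totient : ℝ)) := by
    have hcard : ((Nat.gcd P₁ P₂).divisors.card : ℝ) = ∑ _x ∈ (Nat.gcd P₁ P₂).divisors, (1 : ℝ) := by simp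
    rw [hcard]
    unfold sg sw
    rw [SDC_prod, SDC_prod, SDC_prod]
  rw [hR]
  calc ∑ d ∈ D, 1 / ((lc P₁ P₂ d).totient : ℝ)
      ≤ ∑ d ∈ D, (1 : ℝ) * (1 / ((x d).1.1.2.totient : ℝ)) * (1 / ((x d).1.2.totient : ℝ)) *
        (1 / ((x d).2.totient : ℝ)) := by
        refine Finset.sum_le_sum fun d hd => ?_
        obtain ⟨e1, e2, e3, e4, e5, e6, e7⟩ := hx d hd
        have p1 : 0 < (x d).1.1.2 := Nat.pos_of_dvd_of_pos e3 hP1
        have p2 : 0 < (x d).1.2 := Nat.pos_of_dvd_of_pos e4 hP2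
        have p0 : 0 < (x d).2 := Nat.pos_of_dvd_of_pos e5 hδ
        have t1 : (0 : ℝ) < ((x d).1.1.2.totient : ℝ) := by exact_mod_cast Nat.totient_pos.2 p1
        have t2 : (0 : ℝ) < ((x d).1.2.totient : ℝ) := by exact_mod_cast Nat.totient_pos.2 p2
        have t0 : (0 : ℝ) < ((x d).2.totient : ℝ) := by exact_mod_cast Nat.totient_pos.2 p0
        rw [e7]
        have h1 : (x d).2.totient * (x d).1.1.2.totient * (x d).1.2.totient ≤
            ((x d).2 * (x d).1.1.2 * (x d).1.2).totient :=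
          (Nat.mul_le_mul_right _ (Nat.totient_super_multiplicative _ _)).trans
            (Nat.totient_super_multiplicative _ _)
        have h2 : ((x d).2.totient : ℝ) * ((x d).1.1.2.totient : ℝ) * ((x d).1.2.totient : ℝ) ≤
            (((x d).2 * (x d).1.1.2 * (x d).1.2).totient : ℝ) := by exact_mod_cast h1
        calc 1 / (((x d).2 * (x d).1.1.2 * (x d).1.2).totient : ℝ)
            ≤ 1 / (((x d).2.totient : ℝ) * ((x d).1.1.2.totient : ℝ) * ((x d).1.2.totient : ℝ)) :=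
              one_div_le_one_div_of_le (by positivity) h2
          _ = _ := by
              field_simp
    _ = ∑ z ∈ D.image x, (1 : ℝ) * (1 / (z.1.1.2.totient : ℝ)) * (1 / (z.1.2.totient : ℝ)) *
        (1 / (z.2.totient : ℝ)) :=
        (Finset.sum_image (f := fun z : ((ℕ × ℕ) × ℕ) × ℕ => (1 : ℝ) * (1 / (z.1.1.2.totient : ℝ)) *
          (1 / (z.1.2.totient : ℝ)) * (1 / (z.2.totient : ℝ))) hinj).symm
    _ ≤ _ := by
        refine Finset.sum_le_sum_of_subset_of_nonneg ?_ (fun z _ _ => by positivity)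
        intro z hz
        rw [Finset.mem_image] at hz
        obtain ⟨d, hd, rfl⟩ := hz
        obtain ⟨e1, e2, e3, e4, e5, e6, e7⟩ := hx d hd
        rw [Finset.mem_product, Finset.mem_product, Finset.mem_product, Finset.mem_filter, Nat.mem_divisors,
          Nat.mem_divisors, Nat.mem_divisors, Nat.mem_divisors]
        exact ⟨⟨⟨⟨e2, (Nat.gcd_pos_of_pos_left _ hP1).ne'⟩, e3, hP1.ne'⟩, e4, hP2.ne'⟩, ⟨e5, hδ.ne'⟩, e6⟩

end Pool.Agent.EPT
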