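import Pool.Agent.helper79.EPT.Spec

/-!
# Project EPT, row SMO: second moment
-/

set_option autoImplicit false

namespace Pool.Agent.EPT

open Finset

open scoped Classical in
theorem SMO (hCN1 : CN1_stmt) (hCN2 : CN2_stmt) : SMO_stmt := by
  intro I n r L hL hI
  have hL' : (0 : ℝ) < L := by exact_mod_cast hL
  set X : ℕ → ℝ := fun b => ∑ i ∈ I, (if r i ∣ n i + b then (1 : ℝ) else 0) with hX
  set E : Finset ℕ := (range L).filter fun b => ∃ i ∈ I, r i ∣ n i + b with hE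
  have h1 : ∑ b ∈ range L, X b = L * ∑ i ∈ I, 1 / (r i : ℝ) := by
    rw [hX, Finset.sum_comm, Finset.mul_sum]
    refine Finset.sum_congr rfl fun i hi => ?_
    have h2 := hCN1 (r i) L (n i) (hI i hi).1 (hI i hi).2
    rw [Finset.sum_ite, Finset.sum_const_zero, add_zero, Finset.sum_const, nsmul_eq_mul, mul_one, h2]
    ring
  have h2 : ∑ b ∈ range L, X b ^ 2 =
      L * ∑ i ∈ I, ∑ j ∈ I, cc (n i) (r i) (n j) (r j) / ((r i : ℝ) * (r j : ℝ)) := by
    have h3 : ∀ b, X b ^ 2 = ∑ i ∈ I, ∑ j ∈ I, (if r i ∣ n i + b ∧ r j ∣ n j + b then (1 : ℝ) else 0) := by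
      intro b
      rw [hX, sq, Finset.sum_mul_sum]
      refine Finset.sum_congr rfl fun i _ => Finset.sum_congr rfl fun j _ => ?_
      by_cases hi : r i ∣ n i + b
      · by_cases hj : r j ∣ n j + b
        · simp [hi, hj]
        · simp [hj]
      · simp [hi]
    rw [Finset.sum_congr rfl fun b _ => h3 b, Finset.sum_comm, Finset.mul_sum]
    refine Finset.sum_congr rfl fun i hi => ?_
    rw [Finset.sum_comm, Finset.mul_sum]
    refine Finset.sum_congr rfl fun j hj => ?_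
    have h4 := hCN2 (r i) (r j) L (n i) (n j) (hI i hi).1 (hI j hj).1 (hI i hi).2 (hI j hj).2
    rw [Finset.sum_ite, Finset.sum_const_zero, add_zero, Finset.sum_const, nsmul_eq_mul, mul_one, h4]
    ring
  have hX0 : ∀ b, b ∉ E → b ∈ range L → X b = 0 := by
    intro b hb hbL
    rw [hX]
    refine Finset.sum_eq_zero fun i hi => ?_
    rw [if_neg]
    intro h
    exact hb (by
      rw [hE, Finset.mem_filter]
      exact ⟨hbL, i, hi, h⟩)
  have hsum : ∑ b ∈ E, X b = ∑ b ∈ range L, X b :=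
    Finset.sum_subset (Finset.filter_subset _ _) fun b hb hbE => hX0 b hbE hb
  have hsum2 : ∑ b ∈ E, X b ^ 2 ≤ ∑ b ∈ range L, X b ^ 2 :=
    Finset.sum_le_sum_of_subset_of_nonneg (Finset.filter_subset _ _) fun b _ _ => sq_nonneg _
  have hcs : (∑ b ∈ E, X b) ^ 2 ≤ (E.card : ℝ) * ∑ b ∈ E, X b ^ 2 := sq_sum_le_card_mul_sum_sq
  rw [hsum, h1] at hcs
  rw [h2] at hsum2
  have h5 : (L * ∑ i ∈ I, 1 / (r i : ℝ)) ^ 2 ≤
      (E.card : ℝ) * (L * ∑ i ∈ I, ∑ j ∈ I, cc (n i) (r i) (n j) (r j) / ((r i : ℝ) * (r j : ℝ))) :=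
    hcs.trans (mul_le_mul_of_nonneg_left hsum2 (Nat.cast_nonneg _))
  have h6 : (L : ℝ) * (L * (∑ i ∈ I, 1 / (r i : ℝ)) ^ 2) ≤ L * ((E.card : ℝ) *
      ∑ i ∈ I, ∑ j ∈ I, cc (n i) (r i) (n j) (r j) / ((r i : ℝ) * (r j : ℝ))) := by
    calc (L : ℝ) * (L * (∑ i ∈ I, 1 / (r i : ℝ)) ^ 2) = (L * ∑ i ∈ I, 1 / (r i : ℝ)) ^ 2 := by ring
      _ ≤ _ := h5
      _ = _ := by ring
  exact le_of_mul_le_mul_left h6 hL'

end Pool.Agent.EPT
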