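import Pool.Agent.helper79.EPT.Spec

/-!
# Project EPT, row SOL: from the event to the solution
-/

set_option autoImplicit false

namespace Pool.Agent.EPT

open Finset

theorem SOL (hRS2 : RS2_stmt) : SOL_stmt := by
  intro u α v β p q e a hTy hp hq hpq hpu hqv hdvd hcase
  have hOku : Ok u α := by
    rcases hTy with ⟨h1, h2, _, _⟩ | ⟨h1, h2, _, _⟩ | ⟨h1, h2, _, _⟩
    · exact Or.inl ⟨Or.inl h1, h2⟩
    · exact Or.inl ⟨Or.inl h1, h2⟩
    · exact Or.inl ⟨Or.inr h1, h2⟩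
  have hOkv : Ok v β := by
    rcases hTy with ⟨_, _, h1, h2⟩ | ⟨_, _, h1, h2⟩ | ⟨_, _, h1, h2⟩
    · exact Or.inl ⟨Or.inl h1, h2⟩
    · exact Or.inr ⟨h1, h2⟩
    · exact Or.inr ⟨h1, h2⟩
  have hu8 : u % 8 = u := by
    rcases hTy with ⟨h1, _, _, _⟩ | ⟨h1, _, _, _⟩ | ⟨h1, _, _, _⟩ <;> subst h1 <;> rfl
  have hv8 : v % 8 = v := by
    rcases hTy with ⟨_, _, h1, _⟩ | ⟨_, _, h1, _⟩ | ⟨_, _, h1, _⟩ <;> subst h1 <;> rfl
  obtain ⟨hp1, hp2, _, _, hp4, _, _⟩ := hRS2 1 u α u p odd_one hOku ⟨hu8, one_dvd _⟩ (by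
    rw [mul_one, hpu, hu8])
  obtain ⟨hq1, hq2, _, _, hq4, _, _⟩ := hRS2 1 v β v q odd_one hOkv ⟨hv8, one_dvd _⟩ (by
    rw [mul_one, hqv, hv8])
  obtain ⟨x, hx⟩ : ∃ x, x = pr α p := ⟨_, rfl⟩
  obtain ⟨y, hy⟩ : ∃ y, y = pr β q := ⟨_, rfl⟩
  rw [← hx] at hp1 hp2 hp4 hdvd
  rw [← hy] at hq1 hq2 hq4 hdvd
  -- parity
  have hpodd : p % 2 = 1 := by
    rcases hTy with ⟨h1, _, _, _⟩ | ⟨h1, _, _, _⟩ | ⟨h1, _, _, _⟩ <;> subst h1 <;> omega
  have hqodd : q % 2 = 1 := by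
    rcases hTy with ⟨_, _, h1, _⟩ | ⟨_, _, h1, _⟩ | ⟨_, _, h1, _⟩ <;> subst h1 <;> omega
  have hcpq : Nat.Coprime p q := (Nat.coprime_primes hp hq).2 hpq.ne
  have htot : (p * q).totient = (α * β) * (x * y) := by
    rw [Nat.totient_mul hcpq, Nat.totient_prime hp, Nat.totient_prime hq]
    have e1 : p - 1 = α * x := by omega
    have e2 : q - 1 = β * y := by omega
    rw [e1, e2]
    ring
  have hc2 : Nat.Coprime 2 (p * q) := by
    rw [Nat.coprime_two_left, Nat.odd_mul]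
    exact ⟨Nat.odd_iff.2 hpodd, Nat.odd_iff.2 hqodd⟩
  have hxy4 : Nat.Coprime (x * y) 4 := Nat.Coprime.mul_left hp4 hq4
  have hxy2 : Nat.Coprime 2 (x * y) := by
    have h1 : Nat.Coprime (x * y) 2 := Nat.Coprime.coprime_dvd_right (by norm_num) hxy4
    exact h1.symm
  rcases hcase with ⟨he, hab⟩ | ⟨he, hv3, ha⟩
  · subst he
    rw [pow_zero, pow_zero, one_mul, one_mul, htot]
    -- `αβ` is 4 or 8
    have hαβ : α * β = 4 ∨ α * β = 8 := by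
      rcases hTy with ⟨_, h1, _, h2⟩ | ⟨_, h1, _, h2⟩ | ⟨_, h1, _, h2⟩ <;> subst h1 <;> subst h2 <;> simp
    have hcop : Nat.Coprime (α * β) (x * y) := by
      rcases hαβ with h | h
      · rw [h]
        exact hxy4.symm
      · rw [h]
        have : Nat.Coprime (2 ^ 3) (x * y) := Nat.Coprime.pow_left 3 hxy2
        exact this
    have h8 : (8 : ℤ) ∣ (p : ℤ) * q - (u : ℤ) * v := by
      have e1 : (p : ℤ) = 8 * ((p / 8 : ℕ) : ℤ) + u := by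
        rw [← hpu]
        omega
      have e2 : (q : ℤ) = 8 * ((q / 8 : ℕ) : ℤ) + v := by
        rw [← hqv]
        omega
      rw [e1, e2]
      exact ⟨8 * ((p / 8 : ℕ) : ℤ) * ((q / 8 : ℕ) : ℤ) + ((p / 8 : ℕ) : ℤ) * v + u * ((q / 8 : ℕ) : ℤ), by ring⟩
    have h9 : ((α * β : ℕ) : ℤ) ∣ (p : ℤ) * q + a := by
      have h10 : ((α * β : ℕ) : ℤ) ∣ (8 : ℤ) := by
        rcases hαβ with h | h
        · rw [h]
          norm_num
        · rw [h]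
          norm_num
      have e : (p : ℤ) * q + a = ((p : ℤ) * q - (u : ℤ) * v) + ((u : ℤ) * v + a) := by ring
      rw [e]
      exact Dvd.dvd.add (h10.trans h8) hab
    have h11 : (((α * β : ℕ) : ℤ)) * (((x * y : ℕ) : ℤ)) ∣ (p : ℤ) * q + a := by
      refine IsCoprime.mul_dvd ?_ h9 hdvd
      exact Nat.isCoprime_iff_coprime.2 hcop
    have e3 : ((p * q : ℕ) : ℤ) + a = (p : ℤ) * q + a := by
      push_cast
      ring
    rw [e3]
    have e4 : ((α * β * (x * y) : ℕ) : ℤ) = (((α * β : ℕ) : ℤ)) * (((x * y : ℕ) : ℤ)) := by push_cast; ring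
    rw [e4]
    exact h11
  · have hty : α = 2 ∧ β = 2 := by
      rcases hTy with ⟨_, h1, _, h2⟩ | ⟨_, _, h1, _⟩ | ⟨_, _, h1, _⟩
      · exact ⟨h1, h2⟩
      · omega
      · omega
    obtain ⟨hα, hβ⟩ := hty
    rw [Nat.totient_mul (Nat.Coprime.pow_left e hc2), htot, hα, hβ, Nat.totient_prime_pow Nat.prime_two (by omega)]
    obtain ⟨k, hk⟩ : ∃ k, e = k + 1 := ⟨e - 1, by omega⟩
    subst hk
    have hpar : (2 : ℤ) ∣ (p : ℤ) * q + a := by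
      have e1 : (p : ℤ) = 2 * ((p / 2 : ℕ) : ℤ) + 1 := by omega
      have e2 : (q : ℤ) = 2 * ((q / 2 : ℕ) : ℤ) + 1 := by omega
      have e : (p : ℤ) * q + a = 2 * (2 * ((p / 2 : ℕ) : ℤ) * ((q / 2 : ℕ) : ℤ) + ((p / 2 : ℕ) : ℤ) +
          ((q / 2 : ℕ) : ℤ)) + (1 + a) := by
        rw [e1, e2]
        ring
      rw [e]
      exact Dvd.dvd.add (dvd_mul_right _ _) ha
    have h11 : (2 : ℤ) * (((x * y : ℕ) : ℤ)) ∣ (p : ℤ) * q + a := by
      refine IsCoprime.mul_dvd ?_ hpar hdvd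
      exact_mod_cast Nat.isCoprime_iff_coprime.2 hxy2
    obtain ⟨z, hz⟩ := h11
    refine ⟨z, ?_⟩
    have e5 : ((2 ^ (k + 1) * (p * q) : ℕ) : ℤ) + 2 ^ (k + 1) * a = 2 ^ (k + 1) * ((p : ℤ) * q + a) := by
      push_cast
      ring
    rw [e5, hz]
    have e6 : 2 ^ (k + 1 - 1) * (2 - 1) * (2 * 2 * (x * y)) = 2 ^ (k + 1) * (2 * (x * y)) := by
      rw [Nat.add_sub_cancel, pow_succ]
      ring
    rw [e6]
    push_cast
    ring

end Pool.Agent.EPT
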