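import Pool.Agent.helper79.EPT.Spec

/-!
# Project EPT, row T1: pairs with the same `p`
-/

set_option autoImplicit false

namespace Pool.Agent.EPT

open Finset

open scoped Classical in
theorem T1 (hT1L : T1L_stmt) : T1_stmt := by
  intro α β P R Q hP hR hcop hQ
  have hP0 : (0 : ℝ) < P := by exact_mod_cast (by omega : 0 < P)
  let t : ℕ → ℕ → ℝ := fun x y => if x ≠ y ∧ ((P * Nat.gcd x y : ℕ) : ℤ) ∣ (x : ℤ) - (y : ℤ) then
    (Nat.gcd x y : ℝ) / ((x : ℝ) * (y : ℝ)) else 0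
  have ht0 : ∀ x y, 0 ≤ t x y := by
    intro x y
    show 0 ≤ if x ≠ y ∧ ((P * Nat.gcd x y : ℕ) : ℤ) ∣ (x : ℤ) - (y : ℤ) then
      (Nat.gcd x y : ℝ) / ((x : ℝ) * (y : ℝ)) else 0
    split_ifs
    · positivity
    · exact le_rfl
  have hcPα : Nat.Coprime P (α * P + 1) := by
    rw [Nat.coprime_comm]
    rw [Nat.coprime_mul_right_add_left]
    exact Nat.coprime_one_left P
  have hterm : ∀ q₁ ∈ Q, ∀ q₂ ∈ Q.erase q₁,
      cc ((α * P + 1) * q₁) (P * pr β q₁) ((α * P + 1) * q₂) (P * pr β q₂) /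
        (((P * pr β q₁ : ℕ) : ℝ) * ((P * pr β q₂ : ℕ) : ℝ)) ≤ 1 / (P : ℝ) * t (pr β q₁) (pr β q₂) := by
    intro q₁ hq1 q₂ hq2
    rw [Finset.mem_erase] at hq2
    obtain ⟨a1, a2, a3⟩ := hQ q₁ hq1
    obtain ⟨b1, b2, b3⟩ := hQ q₂ hq2.2
    obtain ⟨x, hx⟩ : ∃ x, x = pr β q₁ := ⟨_, rfl⟩
    obtain ⟨y, hy⟩ : ∃ y, y = pr β q₂ := ⟨_, rfl⟩
    rw [← hx] at a1 a2 ⊢
    rw [← hy] at b1 b2 ⊢
    have hxy : x ≠ y := by
      rintro rfl
      exact hq2.1 (by rw [a1, b1])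
    have hx0 : (0 : ℝ) < x := by exact_mod_cast a2
    have hy0 : (0 : ℝ) < y := by exact_mod_cast b2
    have hg : Nat.gcd (P * x) (P * y) = P * Nat.gcd x y := Nat.gcd_mul_left P x y
    unfold cc
    rw [hg]
    by_cases hd : ((P * Nat.gcd x y : ℕ) : ℤ) ∣ (((α * P + 1) * q₁ : ℕ) : ℤ) - (((α * P + 1) * q₂ : ℕ) : ℤ)
    · rw [if_pos hd]
      have hd2 : ((P * Nat.gcd x y : ℕ) : ℤ) ∣ (x : ℤ) - (y : ℤ) := by
        have e1 : (((α * P + 1) * q₁ : ℕ) : ℤ) - (((α * P + 1) * q₂ : ℕ) : ℤ) =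
            (((α * P + 1) * β : ℕ) : ℤ) * ((x : ℤ) - y) := by
          rw [a1, b1]
          push_cast
          ring
        rw [e1] at hd
        have hgx : ((Nat.gcd x y : ℕ) : ℤ) ∣ (x : ℤ) - y :=
          Dvd.dvd.sub (Int.natCast_dvd_natCast.2 (Nat.gcd_dvd_left _ _))
            (Int.natCast_dvd_natCast.2 (Nat.gcd_dvd_right _ _))
        obtain ⟨k, hk⟩ := hgx
        have hg0 : ((Nat.gcd x y : ℕ) : ℤ) ≠ 0 := by
          exact_mod_cast (Nat.gcd_pos_of_pos_left y a2).ne'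
        rw [hk] at hd ⊢
        have e2 : ((P * Nat.gcd x y : ℕ) : ℤ) = ((Nat.gcd x y : ℕ) : ℤ) * (P : ℤ) := by push_cast; ring
        rw [e2] at hd ⊢
        have e3 : (((α * P + 1) * β : ℕ) : ℤ) * (((Nat.gcd x y : ℕ) : ℤ) * k) =
            ((Nat.gcd x y : ℕ) : ℤ) * ((((α * P + 1) * β : ℕ) : ℤ) * k) := by ring
        rw [e3] at hd
        have h4 : (P : ℤ) ∣ (((α * P + 1) * β : ℕ) : ℤ) * k := (mul_dvd_mul_iff_left hg0).1 hd
        have h5 : IsCoprime (P : ℤ) (((α * P + 1) * β : ℕ) : ℤ) :=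
          Nat.isCoprime_iff_coprime.2 (Nat.Coprime.mul_right hcPα hcop)
        have h6 : (P : ℤ) ∣ k := h5.dvd_of_dvd_mul_left h4
        exact mul_dvd_mul_left _ h6
      have htt : t x y = (Nat.gcd x y : ℝ) / ((x : ℝ) * (y : ℝ)) := if_pos ⟨hxy, hd2⟩
      rw [htt]
      refine le_of_eq ?_
      push_cast
      field_simp
    · rw [if_neg hd, zero_div]
      exact mul_nonneg (by positivity) (ht0 _ _)
  have hinj : ∀ q ∈ Q, ∀ q' ∈ Q, pr β q = pr β q' → q = q' := by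
    intro q hq q' hq' he
    rw [(hQ q hq).1, (hQ q' hq').1, he]
  have hsub : Q.image (pr β) ⊆ Icc 1 R := by
    intro x hx
    rw [Finset.mem_image] at hx
    obtain ⟨q, hq, rfl⟩ := hx
    rw [Finset.mem_Icc]
    exact ⟨(hQ q hq).2.1, (hQ q hq).2.2⟩
  calc ∑ q₁ ∈ Q, ∑ q₂ ∈ Q.erase q₁, cc ((α * P + 1) * q₁) (P * pr β q₁) ((α * P + 1) * q₂) (P * pr β q₂) /
        (((P * pr β q₁ : ℕ) : ℝ) * ((P * pr β q₂ : ℕ) : ℝ))
      ≤ ∑ q₁ ∈ Q, ∑ q₂ ∈ Q.erase q₁, 1 / (P : ℝ) * t (pr β q₁) (pr β q₂) :=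
        Finset.sum_le_sum fun q₁ h1 => Finset.sum_le_sum fun q₂ h2 => hterm q₁ h1 q₂ h2
    _ ≤ ∑ q₁ ∈ Q, ∑ q₂ ∈ Q, 1 / (P : ℝ) * t (pr β q₁) (pr β q₂) := by
        refine Finset.sum_le_sum fun q₁ h1 => ?_
        exact Finset.sum_le_sum_of_subset_of_nonneg (Finset.erase_subset _ _) fun q₂ _ _ =>
          mul_nonneg (by positivity) (ht0 _ _)
    _ = 1 / (P : ℝ) * ∑ q₁ ∈ Q, ∑ q₂ ∈ Q, t (pr β q₁) (pr β q₂) := by
        rw [Finset.mul_sum]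
        refine Finset.sum_congr rfl fun q₁ _ => ?_
        rw [Finset.mul_sum]
    _ = 1 / (P : ℝ) * ∑ x ∈ Q.image (pr β), ∑ y ∈ Q.image (pr β), t x y := by
        rw [Finset.sum_image (f := fun x => ∑ y ∈ Q.image (pr β), t x y) hinj]
        congr 1
        refine Finset.sum_congr rfl fun q₁ _ => ?_
        rw [Finset.sum_image (f := fun y => t (pr β q₁) y) hinj]
    _ ≤ 1 / (P : ℝ) * ∑ x ∈ Icc 1 R, ∑ y ∈ Icc 1 R, t x y := by
        refine mul_le_mul_of_nonneg_left ?_ (by positivity)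
        refine (Finset.sum_le_sum fun x _ => Finset.sum_le_sum_of_subset_of_nonneg hsub fun y _ _ => ht0 x y).trans ?_
        exact Finset.sum_le_sum_of_subset_of_nonneg hsub fun x _ _ => Finset.sum_nonneg fun y _ => ht0 x y
    _ ≤ 1 / (P : ℝ) * (2 * (1 + Real.log (R : ℝ)) ^ 3 / (P : ℝ)) := by
        refine mul_le_mul_of_nonneg_left ?_ (by positivity)
        exact hT1L R P hR hP
    _ = _ := by
        field_simp

end Pool.Agent.EPT
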