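import Pool.Agent.helper79.EPT.Spec

/-!
# Project EPT, row TRI: a progression
-/

set_option autoImplicit false

namespace Pool.Agent.EPT

open Finset

theorem TRI_har (Y : ℕ) : ∑ i ∈ Icc 1 Y, 1 / (i : ℝ) ≤ 1 + Real.log Y := by
  have h1 := harmonic_le_one_add_log Y
  rw [harmonic_eq_sum_Icc] at h1
  push_cast at h1
  simpa [one_div] using h1

theorem TRI : TRI_stmt := by
  intro S A Y m c hA hm hY hS
  have hA0 : (0 : ℝ) < A := by exact_mod_cast (by omega : 0 < A)
  have hm0 : (0 : ℝ) < m := by exact_mod_cast (by omega : 0 < m)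
  have hlog : 0 ≤ 1 + Real.log (Y : ℝ) := by
    have := Real.log_natCast_nonneg Y
    linarith
  by_cases hne : S.Nonempty
  · obtain ⟨x₀, hx0⟩ : ∃ x₀, x₀ = S.min' hne := ⟨_, rfl⟩
    have hx0S : x₀ ∈ S := by
      rw [hx0]
      exact Finset.min'_mem _ _
    have hmin : ∀ x ∈ S, x₀ ≤ x := by
      intro x hx
      rw [hx0]
      exact Finset.min'_le _ _ hx
    rw [← Finset.add_sum_erase S _ hx0S]
    have hfirst : 1 / (x₀ : ℝ) ≤ 1 / (A : ℝ) := by
      refine one_div_le_one_div_of_le hA0 ?_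
      exact_mod_cast (hS x₀ hx0S).1
    have hrest : ∀ x ∈ S.erase x₀, x = x₀ + m * ((x - x₀) / m) ∧ 1 ≤ (x - x₀) / m ∧ (x - x₀) / m ≤ Y := by
      intro x hx
      rw [Finset.mem_erase] at hx
      have hle := hmin x hx.2
      have hlt : x₀ < x := lt_of_le_of_ne hle (Ne.symm hx.1)
      have hmod : x₀ ≡ x [MOD m] := ((hS x₀ hx0S).2.2).trans ((hS x hx.2).2.2).symm
      have hdvd : m ∣ x - x₀ := (Nat.modEq_iff_dvd' hle).1 hmod
      have e1 : m * ((x - x₀) / m) = x - x₀ := Nat.mul_div_cancel' hdvd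
      refine ⟨by omega, ?_, ?_⟩
      · refine Nat.one_le_iff_ne_zero.2 fun h0 => ?_
        rw [h0, mul_zero] at e1
        omega
      · have h2 := Nat.div_le_self (x - x₀) m
        have h3 := (hS x hx.2).2.1
        omega
    have hinj : ∀ x ∈ S.erase x₀, ∀ y ∈ S.erase x₀, (x - x₀) / m = (y - x₀) / m → x = y := by
      intro x hx y hy he
      rw [(hrest x hx).1, (hrest y hy).1, he]
    have hsum : ∑ x ∈ S.erase x₀, 1 / (x : ℝ) ≤ (1 + Real.log (Y : ℝ)) / m := by
      calc ∑ x ∈ S.erase x₀, 1 / (x : ℝ) ≤ ∑ x ∈ S.erase x₀, 1 / ((m : ℝ) * (((x - x₀) / m : ℕ) : ℝ)) := by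
            refine Finset.sum_le_sum fun x hx => ?_
            obtain ⟨e1, e2, e3⟩ := hrest x hx
            obtain ⟨i, hi⟩ : ∃ i, i = (x - x₀) / m := ⟨_, rfl⟩
            rw [← hi] at e1 e2 ⊢
            have hi0 : (0 : ℝ) < i := by exact_mod_cast (by omega : 0 < i)
            refine one_div_le_one_div_of_le (by positivity) ?_
            rw [e1]
            push_cast
            have : (0 : ℝ) ≤ x₀ := Nat.cast_nonneg _
            linarith
        _ = ∑ i ∈ (S.erase x₀).image (fun x => (x - x₀) / m), 1 / ((m : ℝ) * (i : ℝ)) :=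
            (Finset.sum_image (f := fun i : ℕ => 1 / ((m : ℝ) * (i : ℝ))) hinj).symm
        _ ≤ ∑ i ∈ Icc 1 Y, 1 / ((m : ℝ) * (i : ℝ)) := by
            refine Finset.sum_le_sum_of_subset_of_nonneg ?_ (fun i _ _ => by positivity)
            intro i hi
            rw [Finset.mem_image] at hi
            obtain ⟨x, hx, rfl⟩ := hi
            rw [Finset.mem_Icc]
            exact (hrest x hx).2
        _ = (∑ i ∈ Icc 1 Y, 1 / (i : ℝ)) / m := by
            rw [Finset.sum_div]
            refine Finset.sum_congr rfl fun i _ => ?_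
            rw [div_div, mul_comm]
        _ ≤ _ := div_le_div_of_nonneg_right (TRI_har Y) hm0.le
    linarith
  · rw [Finset.not_nonempty_iff_eq_empty] at hne
    rw [hne, Finset.sum_empty]
    positivity

end Pool.Agent.EPT
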