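import Pool.Agent.helper79.EPT.Spec

/-!
# Project EPT, row CN1: counting one residue class
-/

set_option autoImplicit false

namespace Pool.Agent.EPT

open Finset

theorem CN1 : CN1_stmt := by
  intro r L n hr hrL
  classical
  have h0 : (r - n % r) ≤ r := Nat.sub_le _ _
  have hn : n % r < r := Nat.mod_lt _ hr
  have hv : n + (r - n % r) = r * (n / r) + r := by
    have h1 : r * (n / r) + n % r = n := Nat.div_add_mod n r
    omega
  have hvd : r ∣ n + (r - n % r) := by
    rw [hv]
    exact Dvd.dvd.add (dvd_mul_right _ _) dvd_rfl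
  have h1 : ((range L).filter fun b => r ∣ n + b).card = L.count (fun b => b ≡ (r - n % r) [MOD r]) := by
    rw [Nat.count_eq_card_filter_range]
    congr 1
    refine Finset.filter_congr fun b _ => ?_
    constructor
    · intro h
      have h2 : n + b ≡ n + (r - n % r) [MOD r] :=
        ((Nat.modEq_zero_iff_dvd.2 h)).trans (Nat.modEq_zero_iff_dvd.2 hvd).symm
      exact Nat.ModEq.add_left_cancel' n h2
    · intro h
      have h2 : n + b ≡ n + (r - n % r) [MOD r] := Nat.ModEq.add_left n h
      exact Nat.modEq_zero_iff_dvd.1 (h2.trans (Nat.modEq_zero_iff_dvd.2 hvd))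
  have h2 : L % r = 0 := Nat.mod_eq_zero_of_dvd hrL
  have h3 : ((range L).filter fun b => r ∣ n + b).card = L / r := by
    rw [h1, Nat.count_modEq_card L hr, h2]
    simp
  have h4 : (((range L).filter fun b => r ∣ n + b).card : ℝ) = ((L / r : ℕ) : ℝ) := by exact_mod_cast h3
  have h5 : ((L / r : ℕ) : ℝ) = (L : ℝ) / (r : ℝ) := Nat.cast_div hrL (by exact_mod_cast hr.ne')
  rw [← h5, ← h4]

end Pool.Agent.EPT
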