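import Pool.Agent.helper79.EPT.Spec

/-!
# Project EPT, row GPR: the good primes
-/

set_option autoImplicit false

namespace Pool.Agent.EPT

open Finset

open scoped Classical in
theorem GPR (hPS1 : PS1_stmt) (hPLB : PLB_stmt) (hHHB : HHB_stmt) (hRS2 : RS2_stmt) : GPR_stmt := by
  obtain ⟨K, hK, hPS⟩ := hPS1
  refine ⟨32 * K, by linarith, ?_⟩
  intro W₁ u α t hW hOk hRs
  obtain ⟨s₁, hs₁⟩ := hPS W₁ u α t hW hOk hRs
  have hW0 : 0 < W₁ := hW.pos
  have hct : Nat.Coprime t (8 * W₁) := (hRS2 W₁ u α t t hW hOk hRs rfl).2.2.2.2.2.1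
  obtain ⟨j₀, hj₀⟩ := hPLB (8 * W₁) t (by omega) hct
  refine ⟨max (max s₁ j₀) 1, ?_⟩
  intro s hs
  have h1 : s₁ ≤ s := (le_max_left _ _).trans ((le_max_left _ _).trans hs)
  have h2 : j₀ ≤ s := (le_max_right _ _).trans ((le_max_left _ _).trans hs)
  have h3 : 1 ≤ s := (le_max_right _ _).trans hs
  have hφ0 : (0 : ℝ) < ((8 * W₁).totient : ℝ) := by
    exact_mod_cast Nat.totient_pos.2 (by omega : 0 < 8 * W₁)
  obtain ⟨φ, hφ⟩ : ∃ φ : ℝ, φ = ((8 * W₁).totient : ℝ) := ⟨_, rfl⟩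
  have hA := hs₁ s h1
  have hB := hj₀ s (2 * s) h2
  rw [← hφ] at hA hB hφ0 ⊢
  have hH : 1 / 2 ≤ HH s (2 * s) := by
    have h4 := (hHHB s 1 h3).1
    have e : s * 2 ^ 1 = 2 * s := by ring
    rw [e] at h4
    simpa using h4
  -- the primes of the set
  have hprop : ∀ p ∈ SP (8 * W₁) t s (2 * s), p = α * pr α p + 1 ∧ 0 < pr α p := by
    intro p hp
    unfold SP at hp
    rw [Finset.mem_filter] at hp
    have h5 := hRS2 W₁ u α t p hW hOk hRs hp.2.2
    exact ⟨h5.1, h5.2.1⟩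
  have hα : 1 ≤ α := by
    rcases hOk with ⟨_, h⟩ | ⟨_, h⟩
    · omega
    · omega
  have htotal : 1 / (16 * φ) ≤ ∑ p ∈ SP (8 * W₁) t s (2 * s), 1 / (pr α p : ℝ) := by
    calc 1 / (16 * φ) = (1 / 2) / (8 * φ) := by
          field_simp
          norm_num
      _ ≤ HH s (2 * s) / (8 * φ) := div_le_div_of_nonneg_right hH (by positivity)
      _ ≤ ∑ p ∈ SP (8 * W₁) t s (2 * s), 1 / (p : ℝ) := hB
      _ ≤ _ := by
          refine Finset.sum_le_sum fun p hp => ?_
          obtain ⟨e1, e2⟩ := hprop p hp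
          have e3 : pr α p ≤ p := by
            have : pr α p ≤ α * pr α p := Nat.le_mul_of_pos_left _ (by omega)
            omega
          refine one_div_le_one_div_of_le (by exact_mod_cast e2) (by exact_mod_cast e3)
  have hsg0 : ∀ n, 0 ≤ sg n := by
    intro n
    unfold sg
    exact Finset.sum_nonneg fun f _ => by positivity
  have hbad : ∑ p ∈ (SP (8 * W₁) t s (2 * s)).filter (fun p => ¬ sg (pr α p) ≤ 32 * K), 1 / (pr α p : ℝ) ≤
      1 / (32 * φ) := by
    calc ∑ p ∈ (SP (8 * W₁) t s (2 * s)).filter (fun p => ¬ sg (pr α p) ≤ 32 * K), 1 / (pr α p : ℝ)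
        ≤ ∑ p ∈ (SP (8 * W₁) t s (2 * s)).filter (fun p => ¬ sg (pr α p) ≤ 32 * K),
          1 / (32 * K) * (sg (pr α p) / (pr α p : ℝ)) := by
          refine Finset.sum_le_sum fun p hp => ?_
          rw [Finset.mem_filter] at hp
          obtain ⟨e1, e2⟩ := hprop p hp.1
          have e2' : (0 : ℝ) < (pr α p : ℝ) := by exact_mod_cast e2
          have e3 : 32 * K < sg (pr α p) := not_le.1 hp.2
          have e4 : 1 / (32 * K) * (sg (pr α p) / (pr α p : ℝ)) = (sg (pr α p) / (32 * K)) * (1 / (pr α p : ℝ)) := by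
            field_simp
          rw [e4]
          have e5 : 1 ≤ sg (pr α p) / (32 * K) := by
            rw [le_div_iff₀ (by positivity)]
            linarith
          exact le_mul_of_one_le_left (by positivity) e5
      _ ≤ ∑ p ∈ SP (8 * W₁) t s (2 * s), 1 / (32 * K) * (sg (pr α p) / (pr α p : ℝ)) :=
          Finset.sum_le_sum_of_subset_of_nonneg (Finset.filter_subset _ _) fun p _ _ =>
            mul_nonneg (by positivity) (div_nonneg (hsg0 _) (Nat.cast_nonneg _))
      _ = 1 / (32 * K) * ∑ p ∈ SP (8 * W₁) t s (2 * s), sg (pr α p) / (pr α p : ℝ) := by rw [Finset.mul_sum]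
      _ ≤ 1 / (32 * K) * (K / φ) := mul_le_mul_of_nonneg_left hA (by positivity)
      _ = 1 / (32 * φ) := by
          field_simp
  have hsplit := Finset.sum_filter_add_sum_filter_not (SP (8 * W₁) t s (2 * s)) (fun p => sg (pr α p) ≤ 32 * K)
    (fun p => 1 / (pr α p : ℝ))
  have he : 1 / (16 * φ) = 1 / (32 * φ) + 1 / (32 * φ) := by
    field_simp
    norm_num
  linarith

end Pool.Agent.EPT
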