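import Pool.Agent.helper60.EPT.Spec

/-!
# Project EPT (MP_2b48c2_lc), row eth:GSZ: the size of the graph
-/

set_option autoImplicit false

namespace Pool.Agent.EPT

open D

theorem GSZ_ofList (l : List D) (b : ℕ) (h : ∀ a ∈ l, a.size ≤ b) :
    (ofList l).size ≤ l.length * (b + 1) + 1 := by
  induction l with
  | nil => simp
  | cons a l ih =>
    have h1 := h a (List.mem_cons_self ..)
    have h2 := ih fun x hx => h x (List.mem_cons_of_mem _ hx)
    rw [ofList_cons, size_cons, List.length_cons, Nat.add_mul]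
    omega

theorem GSZ_flatMap {α β : Type} (l : List α) (f : α → List β) (b : ℕ) (h : ∀ a ∈ l, (f a).length ≤ b) :
    (l.flatMap f).length ≤ l.length * b := by
  induction l with
  | nil => simp
  | cons a l ih =>
    have h1 := h a (List.mem_cons_self ..)
    have h2 := ih fun x hx => h x (List.mem_cons_of_mem _ hx)
    rw [List.flatMap_cons, List.length_append, List.length_cons, Nat.add_mul]
    omega

theorem GSZ_vc (ch : D) : (vc ch).toList.length = 3 * ch.toList.length := by
  unfold vc
  rw [toList_ofList]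
  induction ch.toList with
  | nil => rfl
  | cons a l ih =>
    rw [List.flatMap_cons, List.length_append, ih, List.length_cons]
    simp only [List.length_cons, List.length_nil]
    omega

theorem GSZ_mem (X l : List D) (a : D) (h : a ∈ (List.zipWith cons X l).map snd) : a ∈ l := by
  induction X generalizing l with
  | nil => simp at h
  | cons x X ih =>
    cases l with
    | nil => simp at h
    | cons y l =>
      rw [List.zipWith_cons_cons, List.map_cons, snd_cons, List.mem_cons] at h
      rcases h with h | h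
      · rw [h]
        exact List.mem_cons_self ..
      · exact List.mem_cons_of_mem _ (ih l h)

theorem GSZ_st (G B : D) (k : ℕ) (hG : ∀ g ∈ G.toList, g.fst.size ≤ 4 * k + 1 ∧ g.snd.toList.length ≤ 2 * k)
    (hB : ∀ β ∈ B.toList, ∀ a ∈ β.toList, a.size ≤ 3) (u : D) (hu : u ∈ (lv G B).toList) :
    (st u).size ≤ 28 * k + 3 := by
  unfold lv at hu
  rw [toList_ofList, List.mem_flatMap] at hu
  obtain ⟨g, hg, hu⟩ := hu
  rw [List.mem_map] at hu
  obtain ⟨e, he, rfl⟩ := hu
  have he' := List.mem_of_mem_filter he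
  rw [List.mem_map] at he'
  obtain ⟨β, hβ, rfl⟩ := he'
  obtain ⟨h1, h2⟩ := hG g hg
  unfold st
  rw [size_cons, fst_cons, snd_cons]
  have h3 := GSZ_ofList (((zp (vc g.snd) β).toList).map snd) 3 fun a ha => by
    unfold zp at ha
    rw [toList_ofList] at ha
    exact hB β hβ a (GSZ_mem _ _ a ha)
  have h4 : (((zp (vc g.snd) β).toList).map snd).length ≤ 6 * k := by
    unfold zp
    rw [toList_ofList, List.length_map, List.length_zipWith, GSZ_vc]
    omega
  omega

theorem GSZ_lv (G B : D) (k : ℕ) (hk : G.toList.length = k) :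
    (lv G B).toList.length ≤ k * B.toList.length := by
  unfold lv
  rw [toList_ofList, ← hk]
  refine GSZ_flatMap _ _ _ fun g _ => ?_
  rw [List.length_map]
  refine (List.length_filter_le _ _).trans ?_
  rw [List.length_map]

theorem GSZ : GSZ_stmt := by
  intro G B k hk hG hB
  set L := (lv G B).toList with hL
  have hLlen : L.length ≤ k * B.toList.length := GSZ_lv G B k hk
  have hst : ∀ u ∈ L, (st u).size ≤ 28 * k + 3 := GSZ_st G B k hG hB
  unfold gra
  rw [size_cons, size_cons, ← hL]
  have h1 := GSZ_ofList (G.toList.map fun _ => nil) 1 fun a ha => by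
    rw [List.mem_map] at ha
    obtain ⟨_, _, rfl⟩ := ha
    rfl
  rw [List.length_map, hk] at h1
  have h2 := GSZ_ofList (L.map st) (28 * k + 3) fun a ha => by
    rw [List.mem_map] at ha
    obtain ⟨u, hu, rfl⟩ := ha
    exact hst u hu
  rw [List.length_map] at h2
  have h3 := GSZ_ofList (L.flatMap fun u => (L.filter fun w => u.fst ≠ w.fst ∧ cns u.snd w.snd).map
    fun w => cons (st u) (st w)) (56 * k + 7) fun a ha => by
    rw [List.mem_flatMap] at ha
    obtain ⟨u, hu, ha⟩ := ha
    rw [List.mem_map] at ha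
    obtain ⟨w, hw, rfl⟩ := ha
    have e1 := hst u hu
    have e2 := hst w (List.mem_of_mem_filter hw)
    rw [size_cons]
    omega
  have h4 : (L.flatMap fun u => (L.filter fun w => u.fst ≠ w.fst ∧ cns u.snd w.snd).map
    fun w => cons (st u) (st w)).length ≤ L.length * L.length := by
    refine GSZ_flatMap _ _ _ fun u _ => ?_
    rw [List.length_map]
    exact List.length_filter_le _ _
  set M := B.toList.length with hM
  have h5 : L.length * (28 * k + 3 + 1) ≤ k * M * (28 * k + 4) := Nat.mul_le_mul_right _ hLlen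
  have h6 : (L.flatMap fun u => (L.filter fun w => u.fst ≠ w.fst ∧ cns u.snd w.snd).map
    fun w => cons (st u) (st w)).length * (56 * k + 7 + 1) ≤ k * M * (k * M) * (56 * k + 8) :=
    Nat.mul_le_mul_right _ (h4.trans (Nat.mul_le_mul hLlen hLlen))
  have h7 : 2 * k + 5 + k * M * (28 * k + 4) + k * M * (k * M) * (56 * k + 8) ≤
      200 * (k + 1) ^ 3 * (M + 1) ^ 2 := by
    have : 200 * (k + 1) ^ 3 * (M + 1) ^ 2 = 2 * k + 5 + k * M * (28 * k + 4) + k * M * (k * M) * (56 * k + 8) +
      (144 * k ^ 3 * M ^ 2 + 400 * k ^ 3 * M + 200 * k ^ 3 + 592 * k ^ 2 * M ^ 2 + 1172 * k ^ 2 * M + 600 * k ^ 2 +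
        600 * k * M ^ 2 + 1196 * k * M + 598 * k + 200 * M ^ 2 + 400 * M + 195) := by ring
    omega
  omega

end Pool.Agent.EPT
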